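import Pool.Agent.MP_3ce0a0_al.H79.XS
import Pool.Agent.MP_3ce0a0_al.H79.XJ

/-
The sectors of weight between two and `n - 2` vanish.
-/

namespace Pool.Agent.MP_3ce0a0_al.H91

open Equiv Module Finset Pool.Agent.MP_3ce0a0_al.H62.Inst Pool.Agent.MP_3ce0a0_al.H79.X

section
variable {ι H : Type} [Fintype ι] [DecidableEq ι] [AddCommGroup H] [Module ℂ H]

open Classical in
/-- the dimension of a full sector of given weight. -/
noncomputable def mw (r : Rep ι H) (w : ℕ) : ℕ :=
  if h : ∃ I : Finset ι, I.card = w then mu r h.choose else 0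

lemma mu_eq (r : Rep ι H) (I : Finset ι) : mu r I = mw r I.card := by
  have h : ∃ J : Finset ι, J.card = I.card := ⟨I, rfl⟩
  rw [mw, dif_pos h]
  exact mu_congr r h.choose_spec.symm

/-- all defects at weight `u` are at most `σ`. -/
def Db (r : Rep ι H) (u σ : ℕ) : Prop :=
  ∀ (J : Finset ι) (i j : ι), i ≠ j → NC (univ \ {i, j}) J → J.card = u → df r J i j ≤ σ

lemma card_pair_union {J : Finset ι} {i j : ι} (h : i ≠ j) (k : J ⊆ univ \ {i, j}) :
    (J ∪ {i, j}).card = J.card + 2 := by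
  rw [card_union_of_disjoint, card_pair h]
  exact disjoint_of_subset_left k sdiff_disjoint

variable [FiniteDimensional ℂ H]

lemma df_le (r : Rep ι H) (J : Finset ι) (i j : ι) : df r J i j ≤ mw r J.card := by
  rw [← mu_eq]
  exact Submodule.finrank_mono inf_le_left

lemma Db_self (r : Rep ι H) (u : ℕ) (h : mw r u = 0) : Db r u 0 := fun J i j _ _ e => by
  rw [← h, ← e]
  exact df_le r J i j

lemma Db_two (h2 : SDef) (r : Rep ι H) (hU : UN r) (u : ℕ) (h : mw r (u + 2) = 0) : Db r u 0 :=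
  fun J i j hij hJ e => by
    rw [(h2 ι H r i j J hU hij hJ).1, ← h, ← e, ← card_pair_union hij hJ.1]
    exact df_le r _ i j

lemma Db_mid (h2 : SDef) (r : Rep ι H) (hU : UN r) (u k B : ℕ) (hk : 4 ≤ k) (h1 : 2 * k ≤ u)
    (h3 : u + 2 * k + 2 ≤ Fintype.card ι) (h4 : mw r u < (k + 1).choose 2)
    (h5 : mw r (u + 2) < (k + 1).choose 2) (h6 : mw r u ≤ B) (h7 : mw r (u + 2) ≤ B) :
    Db r u (8 * B / (k + 1)) := fun J i j hij hJ e => by
  have e1 : mu r J = mw r u := by rw [mu_eq, e]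
  have e2 : mu r (J ∪ {i, j}) = mw r (u + 2) := by rw [mu_eq, card_pair_union hij hJ.1, e]
  have := (h2 ι H r i j J hU hij hJ).2 k hk (e ▸ h1) (e ▸ h3) (e1 ▸ h4) (e2 ▸ h5)
  rw [Nat.le_div_iff_mul_le (by omega), mul_comm]
  rw [e1, e2] at this
  omega

/-- the recursive inequality. -/
lemma key (h1 : SLoc) (h2 : SDef) (r : Rep ι H) (hU : UN r) (hS : Star r) (w σ : ℕ) (hw : 1 ≤ w)
    (hn : w + 5 ≤ Fintype.card ι) (d0 : Db r w σ) (d1 : Db r (w + 1) σ) (d2 : Db r (w + 2) σ) :
    mw r (w + 1) + mw r (w + 3) ≤ mw r (w + 2) + 1000 * σ := by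
  obtain ⟨Q, -, hQ⟩ := exists_subset_card_eq (s := (univ : Finset ι)) (n := 4)
    (by rw [card_univ]; omega)
  obtain ⟨a, b, a', b', n1, n2, n3, n4, n5, n6, rfl⟩ := card_eq_four.1 hQ
  have hc : (univ \ {a, b, a', b'} : Finset ι).card = Fintype.card ι - 4 := by
    rw [card_sdiff_of_subset (subset_univ _), hQ, card_univ]
  obtain ⟨I, hI, hIw⟩ := exists_subset_card_eq (s := (univ \ {a, b, a', b'} : Finset ι)) (n := w)
    (by omega)
  have nd : [a, b, a', b'].Nodup := by simp [n1, n2, n3, n4, n5, n6]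
  have hne : I.Nonempty := card_pos.1 (by omega)
  have hI' : I ≠ univ \ {a, b, a', b'} := fun e => by
    rw [e] at hIw
    omega
  have nc : NC (univ \ {a, b, a', b'}) I := ⟨hI, hne, hI'⟩
  have dj : Disjoint I {a, b, a', b'} := disjoint_of_subset_left hI sdiff_disjoint
  have main := h1 ι H r a b a' b' I σ hU nd nc ?_ (hS a b a' b' nd I nc)
  · rw [mu_eq, mu_eq, mu_eq, card_union_of_disjoint (dj.mono_right (by simp)),
      card_union_of_disjoint (dj.mono_right (by intro x; simp; tauto)),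
      card_union_of_disjoint (dj.mono_right (by intro x; simp; tauto)), hIw, card_singleton,
      card_pair n1, card_eq_three.2 ⟨a, b, a', n1, n2, n4, rfl⟩] at main
    exact main
  intro J hJ i hi j hj hij hiff
  obtain ⟨x, hx, hxI⟩ := exists_of_ssubset (hI.ssubset_of_ne hI')
  have hx' : x ∉ ({a, b, a', b'} : Finset ι) := (mem_sdiff.1 hx).2
  have nc' : NC (univ \ {i, j}) (J \ {i, j}) := by
    refine ⟨sdiff_subset_sdiff (subset_univ _) Subset.rfl, hne.mono fun y hy => ?_, fun e => ?_⟩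
    · have := mem_sdiff.1 (hJ ▸ hy)
      refine mem_sdiff.2 ⟨this.1, fun k => this.2 ?_⟩
      rcases mem_insert.1 k with rfl | k
      · exact hi
      · exact (mem_singleton.1 k) ▸ hj
    · have : x ∈ J \ {i, j} := by
        rw [e]
        refine mem_sdiff.2 ⟨mem_univ _, fun k => hx' ?_⟩
        rcases mem_insert.1 k with rfl | k
        · exact hi
        · exact (mem_singleton.1 k) ▸ hj
      exact hxI (hJ ▸ mem_sdiff.2 ⟨(mem_sdiff.1 this).1, hx'⟩)
  have sub : ({i, j} : Finset ι) ⊆ {a, b, a', b'} := insert_subset hi (singleton_subset_iff.2 hj)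
  have lo : w ≤ (J \ {i, j}).card := by
    rw [← hIw, ← hJ]
    exact card_le_card (sdiff_subset_sdiff Subset.rfl sub)
  have up : (J \ {i, j}).card ≤ w + 2 := by
    have : J \ {i, j} ⊆ I ∪ ({a, b, a', b'} \ {i, j}) := fun y hy => by
      rw [← hJ]
      by_cases k : y ∈ ({a, b, a', b'} : Finset ι)
      · exact mem_union_right _ (mem_sdiff.2 ⟨k, (mem_sdiff.1 hy).2⟩)
      · exact mem_union_left _ (mem_sdiff.2 ⟨(mem_sdiff.1 hy).1, k⟩)
    have k := (card_le_card this).trans (card_union_le _ _)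
    rw [card_sdiff_of_subset sub, hQ, card_pair hij, hIw] at k
    exact k
  have fin : df r (J \ {i, j}) i j ≤ σ := by
    rcases (by omega : (J \ {i, j}).card = w ∨ (J \ {i, j}).card = w + 1 ∨
      (J \ {i, j}).card = w + 2) with e | e | e
    exacts [d0 _ i j hij nc' e, d1 _ i j hij nc' e, d2 _ i j hij nc' e]
  by_cases k : i ∈ J
  · have e : J \ {i, j} ∪ {i, j} = J :=
      sdiff_union_of_subset (insert_subset k (singleton_subset_iff.2 (hiff.1 k)))
    rw [(h2 ι H r i j _ hU hij nc').1, e] at fin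
    exact fin
  · have e : J \ {i, j} = J := by
      refine sdiff_eq_self_of_disjoint (disjoint_insert_right.2 ⟨k, ?_⟩)
      exact disjoint_singleton_right.2 fun k' => k (hiff.2 k')
    rw [e] at fin
    exact fin

/-- one round of the estimate near the middle. -/
lemma round (h1 : SLoc) (h2 : SDef) (r : Rep ι H) (hU : UN r) (hS : Star r) (lo hi k B : ℕ)
    (hk : 4 ≤ k) (hlo : 2 * k ≤ lo) (hhi : hi + 2 * k ≤ Fintype.card ι)
    (hC : ∀ u, lo ≤ u → u ≤ hi → mw r u < (k + 1).choose 2)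
    (hB : ∀ u, lo ≤ u → u ≤ hi → mw r u ≤ B) (p : ℕ) (hp : lo + 3 ≤ p) (hp' : p + 3 ≤ hi) :
    mw r p ≤ 3000 * (8 * B / (k + 1)) := by
  have D : ∀ u, lo ≤ u → u + 2 ≤ hi → Db r u (8 * B / (k + 1)) := fun u a b =>
    Db_mid h2 r hU u k B hk (by omega) (by omega) (hC _ a (by omega)) (hC _ (by omega) b)
      (hB _ a (by omega)) (hB _ (by omega) b)
  have K : ∀ w, lo ≤ w → w + 4 ≤ hi →
      mw r (w + 1) + mw r (w + 3) ≤ mw r (w + 2) + 1000 * (8 * B / (k + 1)) := fun w a b =>
    key h1 h2 r hU hS w _ (by omega) (by omega) (D _ a (by omega)) (D _ (by omega) (by omega))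
      (D _ (by omega) (by omega))
  obtain ⟨q, rfl⟩ : ∃ q, p = q + 3 := ⟨p - 3, by omega⟩
  have k0 := K q (by omega) (by omega)
  have k1 := K (q + 1) (by omega) (by omega)
  have k2 := K (q + 2) (by omega) (by omega)
  simp only [add_assoc, Nat.reduceAdd] at k0 k1 k2
  omega

end

theorem sind (h1 : SLoc) (h2 : SDef) (h3 : SBin) : SInd := by
  obtain ⟨n₀, hn₀⟩ := h3 4800000 15
  refine ⟨max n₀ 100, fun ι H _ _ _ _ _ r hn hd hU hS => ?_⟩
  have hn1 : n₀ ≤ Fintype.card ι := le_of_max_le_left hn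
  have hn2 : 100 ≤ Fintype.card ι := le_of_max_le_right hn
  obtain ⟨n, en⟩ : ∃ n, Fintype.card ι = n := ⟨_, rfl⟩
  obtain ⟨k, ek⟩ : ∃ k, n / 5 = k := ⟨_, rfl⟩
  obtain ⟨c, ec⟩ : ∃ c, n / 2 = c + 7 := ⟨n / 2 - 7, by omega⟩
  have hsq : n * n < 25 * ((k + 1) * (k + 1)) := by
    have : n < 5 * (k + 1) := by omega
    nlinarith
  have b0 : ∀ u, c ≤ u → u ≤ c + 14 → 4800000 * mw r u ≤ n * n := fun u a b => by
    obtain ⟨I, -, hI⟩ := exists_subset_card_eq (s := (univ : Finset ι)) (n := u)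
      (by rw [card_univ]; omega)
    have e1 := (choose_mul_mu_le r I).trans hd
    have e2 := hn₀ n u (by omega) (by omega) (by omega)
    rw [mu_eq, hI, en] at e1
    refine Nat.le_of_mul_le_mul_right (c := 2 ^ n) ?_ (by positivity)
    calc 4800000 * mw r u * 2 ^ n = 4800000 * 2 ^ n * mw r u := by ring
      _ ≤ n * n.choose u * mw r u := Nat.mul_le_mul_right _ e2
      _ = n * (n.choose u * mw r u) := by ring
      _ ≤ n * (n * 2 ^ n) := Nat.mul_le_mul_left _ e1
      _ = n * n * 2 ^ n := by ring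
  have hC : ∀ u, c ≤ u → u ≤ c + 14 → mw r u < (k + 1).choose 2 := fun u a b => by
    have e1 := b0 u a b
    have e2 : (k + 1).choose 2 * 2 = (k + 1) * k := by
      rw [Nat.choose_two_right, Nat.div_mul_cancel]
      · rfl
      · exact (Nat.even_mul_pred_self _).two_dvd
    have e3 : 1 ≤ k := by omega
    nlinarith
  obtain ⟨B, eB⟩ : ∃ B, n * n / 4800000 = B := ⟨_, rfl⟩
  have r1 := round h1 h2 r hU hS c (c + 14) k B (by omega) (by omega) (by omega) hC
    (fun u a b => by have := b0 u a b; omega)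
  have r2 := round h1 h2 r hU hS (c + 3) (c + 11) k _ (by omega) (by omega) (by omega)
    (fun u a b => hC u (by omega) (by omega)) (fun u a b => r1 u a (by omega))
  have z : 8 * (3000 * (8 * B / (k + 1))) / (k + 1) = 0 := by
    refine Nat.div_eq_of_lt (Nat.lt_of_mul_lt_mul_right (a := k + 1) ?_)
    have e1 := Nat.div_mul_le_self (8 * B) (k + 1)
    have e2 : 4800000 * B ≤ n * n := by omega
    nlinarith
  rw [z] at r2
  have up : ∀ t, c + 8 + t + 2 ≤ n →
      mw r (c + 6 + t) = 0 ∧ mw r (c + 6 + t + 1) = 0 ∧ mw r (c + 6 + t + 2) = 0 := by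
    intro t
    induction t with
    | zero =>
      exact fun _ => ⟨Nat.le_zero.1 (r2 _ (by omega) (by omega)),
        Nat.le_zero.1 (r2 _ (by omega) (by omega)), Nat.le_zero.1 (r2 _ (by omega) (by omega))⟩
    | succ t ih =>
      intro h
      obtain ⟨a, b, d⟩ := ih (by omega)
      have := key h1 h2 r hU hS (c + 6 + t) 0 (by omega) (by omega) (Db_self r _ a)
        (Db_self r _ b) (Db_self r _ d)
      refine ⟨b, d, ?_⟩
      rw [show c + 6 + (t + 1) + 2 = c + 6 + t + 3 by omega]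
      omega
  have down : ∀ t d, d + t = c + 6 → 2 ≤ d →
      mw r d = 0 ∧ mw r (d + 1) = 0 ∧ mw r (d + 2) = 0 := by
    intro t
    induction t with
    | zero =>
      intro d h _
      rw [show d = c + 6 + 0 by omega]
      exact up 0 (by omega)
    | succ t ih =>
      intro d h h'
      obtain ⟨a, b, -⟩ := ih (d + 1) (by omega) (by omega)
      obtain ⟨w, rfl⟩ : ∃ w, d = w + 1 := ⟨d - 1, by omega⟩
      have := key h1 h2 r hU hS w 0 (by omega) (by omega) (Db_two h2 r hU _ a)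
        (Db_two h2 r hU _ b) (Db_self r _ a)
      refine ⟨?_, a, b⟩
      have a' : mw r (w + 2) = 0 := a
      omega
  intro I hI hI'
  rw [← Submodule.finrank_eq_zero]
  change mu r I = 0
  rw [mu_eq]
  by_cases h : I.card ≤ c + 8
  · by_cases h' : I.card ≤ c + 6
    · exact (down (c + 6 - I.card) _ (by omega) hI).1
    · exact Nat.le_zero.1 (r2 _ (by omega) (by omega))
  · have := (up (I.card - (c + 8)) (by omega)).2.2
    rwa [show c + 6 + (I.card - (c + 8)) + 2 = I.card by omega] at this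

end Pool.Agent.MP_3ce0a0_al.H91
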